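import Pool.Agent.Helper88.NF.Frame
import Pool.Agent.Helper30.RED.CurveN

/-!
# Return sets of curves in projective space over the complex numbers
-/

set_option autoImplicit false

namespace Pool.Agent.Helper88.NF

open MvPolynomial
open Pool.Agent.Helper33.SS (InZ ev SGood)
open Pool.Agent.Helper36 (iter iter_succ)

/-- **Return sets of curves.** For every endomorphism of degree at least two of projective space
over the complex numbers, every point and every closed set of dimension at most one, the return set
is the union of finitely many progressions and of a super-sparse set. -/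
theorem sgood_curve (N d : ℕ) (hd : 2 ≤ d)
    (f : Fin (N + 1) → MvPolynomial (Fin (N + 1)) ℂ) (hf : ∀ i, (f i).IsHomogeneous d)
    (hnz : ∀ x : Fin (N + 1) → ℂ, (∀ i, eval x (f i) = 0) → x = 0)
    (a : Fin (N + 1) → ℂ) (ha : a ≠ 0)
    (V : Set (MvPolynomial (Fin (N + 1)) ℂ)) (hV : ∀ g ∈ V, ∃ e : ℕ, g.IsHomogeneous e)
    (hdim : ringKrullDim (MvPolynomial (Fin (N + 1)) ℂ ⧸ Ideal.span V) ≤ 2) :
    SGood {n | InZ V ((ev f)^[n] a)} := by
  have hiter : ∀ (f : Fin (N + 1) → MvPolynomial (Fin (N + 1)) ℂ) (z : Fin (N + 1) → ℂ) (n : ℕ),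
      (ev f)^[n] z = iter f z n := by
    intro f z n
    induction n with
    | zero => rfl
    | succ n ih =>
      rw [iter_succ, Function.iterate_succ_apply', ih]
      rfl
  have h1 := Pool.Agent.Helper30.RED.curveN_induct (ν := N) (d := d) SGood
    (fun A => SGood.of_AP ⟨A, rfl⟩) (fun S T => Pool.Agent.Helper29.TG.sgood_inter)
    (Pool.Agent.Helper30.RED.unbC N d) (fun φ z S hC => by
      have h2 := sgood_algebraic_curve N d hd φ hC.endo.hom hC.endo.nz hC.algf z hC.ne hC.algz
        (S : Set (MvPolynomial (Fin (N + 1)) ℂ)) (fun g hg => hC.hom g (Finset.mem_coe.1 hg))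
        hC.dim
      simp only [hiter] at h2
      exact h2) (f := f) ⟨hd, hf, hnz⟩ ha hV hdim
  simp only [hiter]
  exact h1

end Pool.Agent.Helper88.NF
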